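import Pool.Agent.Q82.Adding2

/-! # The residual spectrum of the stochastic adding machine operator on the continuous
functions is empty -/

namespace Pool.Agent.Results.MP_8907f9_an.EmptyResidual

open Filter Topology Finset

noncomputable section

/-- Digit sequences, the digit number `r` (counted from `0`) running over `0, …, d r - 1`. -/
abbrev Gam (d : ℕ → ℕ) : Type := ∀ r : ℕ, Fin (d r)

/-- The complex continuous functions on the compact space of digit sequences. -/
abbrev CC (d : ℕ → ℕ) : Type := C(Gam d, ℂ)

/-- The bounded operators on the continuous functions. -/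
abbrev Op (d : ℕ → ℕ) : Type := CC d →L[ℂ] CC d

variable {d : ℕ → ℕ} [∀ r, NeZero (d r)]

/-- The first `s` digits of `x` are the maximal ones, that is, `s < s_x`. -/
def Full (x : Gam d) (s : ℕ) : Prop := ∀ j < s, (x j : ℕ) + 1 = d j

open Classical in
/-- The map `x ↦ x + 1` (addition with carries): the digit number `i` is increased by one
modulo `d i` if all digits before it are maximal, and kept otherwise. -/
def V (x : Gam d) : Gam d := fun i => if Full x i then x i + 1 else x i

/-- `x` with its first `s` digits replaced by `0`. -/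
def T (s : ℕ) (x : Gam d) : Gam d := fun i => if i < s then 0 else x i

/-- The product of the first `s` probabilities. -/
def pp (p : ℕ → ℝ) (s : ℕ) : ℝ := ∏ i ∈ range s, p i

open Classical in
/-- The product of the probabilities with (1-based) indices `1, …, s_x`; an infinite product
(the infimum of its partial products) if `s_x = ∞`. -/
def P (p : ℕ → ℝ) (x : Gam d) : ℝ := ⨅ n : ℕ, ∏ i ∈ range n, if Full x i then p i else 1

open Classical in
/-- The term number `s` of the sum over `1 ≤ s < s_x`. -/
def term (p : ℕ → ℝ) (g : CC d) (x : Gam d) (s : ℕ) : ℂ :=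
  if 1 ≤ s ∧ Full x s then (pp p s * (1 - p s) : ℝ) * g (T s x) else 0

/-- The formula for the stochastic adding machine operator. -/
def formula (p : ℕ → ℝ) (g : CC d) (x : Gam d) : ℂ :=
  (1 - p 0 : ℝ) * g x + (P p x : ℂ) * g (V x) + ∑' s, term p g x s

/-- The value `S g`. -/
def ap (S : Op d) (g : CC d) : CC d := S g

/-- The map `S - l I`. -/
def sh (S : Op d) (l : ℂ) (g : CC d) : CC d := ap S g - l • g

/-- The residual spectrum of a bounded operator. -/
def residual (S : Op d) : Set ℂ :=
  {l | Function.Injective (sh S l) ∧ closure (Set.range (sh S l)) ≠ Set.univ}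

variable {p : ℕ → ℝ}

lemma term_eq (g : CC d) (x : Gam d) {s : ℕ} (hs : 1 ≤ s) :
    term p g x s = (Q82.Adding.wt p x s : ℂ) * g (T s x) := by
  classical
  unfold term Q82.Adding.wt
  by_cases h : Full x s
  · have h' : Q82.Adding.full x s := h
    rw [if_pos ⟨hs, h⟩, if_pos h']
    rfl
  · have h' : ¬ Q82.Adding.full x s := h
    rw [if_neg (fun h1 => h h1.2), if_neg h']
    simp

lemma term_zero (g : CC d) (x : Gam d) : term p g x 0 = 0 := by
  unfold term
  rw [if_neg]
  omega

lemma term_summable (hp : ∀ r, 0 < p r ∧ p r ≤ 1) (g : CC d) (x : Gam d) :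
    Summable (term p g x) := by
  have h1 := Q82.Adding.form_summable hp g g.norm_coe_le_norm x
  rw [← summable_nat_add_iff 1] at h1 ⊢
  convert h1 using 2 with s
  exact term_eq g x (by omega)

lemma formula_eq (hp : ∀ r, 0 < p r ∧ p r ≤ 1) (g : CC d) (x : Gam d) :
    formula p g x = Q82.Adding.form p g x := by
  have h1 := Q82.Adding.form_summable hp g g.norm_coe_le_norm x
  have h2 := (term_summable hp g x).tsum_eq_zero_add
  have h3 := h1.tsum_eq_zero_add
  unfold formula Q82.Adding.form
  rw [h2, h3, term_zero]
  have h4 : Q82.Adding.wt p x 0 = 1 - p 0 := by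
    unfold Q82.Adding.wt
    have h : Q82.Adding.full x 0 := fun j hj => absurd hj (Nat.not_lt_zero j)
    rw [if_pos h]
    simp [Q82.Adding.pp]
  have h5 : Q82.Adding.T 0 x = x := by
    funext i
    simp [Q82.Adding.T]
  have h6 : ∀ s, term p g x (s + 1) =
      (Q82.Adding.wt p x (s + 1) : ℂ) * g (Q82.Adding.T (s + 1) x) := fun s =>
    term_eq g x (by omega)
  simp only [h6]
  rw [h4, h5]
  have h7 : Q82.Adding.P p x = P p x := rfl
  have h8 : Q82.Adding.V x = V x := rfl
  rw [h7, h8]
  ring

/-- For all digit bounds `d r ≥ 2` (bounded or not) and all probabilities `p r ∈ (0, 1]` the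
formula defines a bounded operator of norm at most one on the continuous functions, and its
residual spectrum is empty. -/
theorem result (d : ℕ → ℕ) [∀ r, NeZero (d r)] (_ : ∀ r, 2 ≤ d r) (p : ℕ → ℝ)
    (hp : ∀ r, 0 < p r ∧ p r ≤ 1) :
    (∀ (g : CC d) (x : Gam d), Summable (term p g x)) ∧
    (∃ S : Op d, ‖S‖ ≤ 1 ∧ ∀ g x, ap S g x = formula p g x) ∧
    ∀ S : Op d, (∀ g x, ap S g x = formula p g x) → residual S = ∅ := by
  refine ⟨term_summable hp, ⟨Q82.Adding.S hp, Q82.Adding.S_norm hp, fun g x => ?_⟩,
    fun S hS => ?_⟩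
  · change Q82.Adding.S hp g x = _
    rw [formula_eq hp, Q82.Adding.S_apply]
  · have h1 : S = Q82.Adding.S hp := by
      ext g x
      have h2 := hS g x
      unfold ap at h2
      rw [h2, formula_eq hp, Q82.Adding.S_apply]
    rw [h1, Set.eq_empty_iff_forall_notMem]
    rintro l ⟨hl, hl'⟩
    exact hl' (Q82.Adding.range_dense hp hl)

end

end Pool.Agent.Results.MP_8907f9_an.EmptyResidual
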